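import Mathlib
import Pool.Agent.Lib.MP_d0d59f_nt.Basic

namespace Pool.Agent.Lib.MP_d0d59f_nt.AA

end Pool.Agent.Lib.MP_d0d59f_nt.AA

/-! Counting functions (definitions). -/

namespace Pool.Agent.Lib.MP_d0d59f_nt.ND

open Finset AA Filter Topology

/-- Number of odd elements of `S` in `[1, Z)`. -/
noncomputable def oc (S : Set ℤ) (Z : ℝ) : ℕ :=
  Set.ncard {N : ℤ | 1 ≤ N ∧ (N : ℝ) < Z ∧ Odd N ∧ N ∈ S}

/-- Number of elements of `S` in `[1, Z)`. -/
noncomputable def ac (S : Set ℤ) (Z : ℝ) : ℕ :=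
  Set.ncard {x : ℤ | 1 ≤ x ∧ (x : ℝ) < Z ∧ x ∈ S}

/-- The grand orbits: `x ~ y` if the orbits of `x` and `y` meet. -/
def grand (d : ℤ) : Setoid ℤ where
  r x y := ∃ m n : ℕ, (T d)^[m] x = (T d)^[n] y
  iseqv := by
    refine ⟨fun x => ⟨0, 0, rfl⟩, fun {x y} h => ?_, fun {x y z} h h' => ?_⟩
    · obtain ⟨m, n, h⟩ := h
      exact ⟨n, m, h.symm⟩
    · obtain ⟨m, n, h⟩ := h
      obtain ⟨p, q, h'⟩ := h'
      refine ⟨p + m, n + q, ?_⟩
      rw [Function.iterate_add_apply, h, ← Function.iterate_add_apply,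
        Nat.add_comm p n, Function.iterate_add_apply, h', ← Function.iterate_add_apply]

end Pool.Agent.Lib.MP_d0d59f_nt.ND
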