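import Pool.Agent.Lib.MP_d0d59f_nt.ND.V3f

/-! Approximation of `1` by `3^a / 2^n` with `a`, `n` in given residue classes; the rate tends to
zero; equal densities in two classes. -/

namespace Pool.Agent.Lib.MP_d0d59f_nt.ND

open Finset AA Filter Topology

/-- `3^a / 2^n` is close to `1` with `a ≡ s`, `n ≡ t` modulo `f`, `a ≤ n`. -/
theorem dens_pair {f : ℕ} (hf : 0 < f) (s t : ℕ) {η : ℝ} (hη : 0 < η) (hη1 : η < 1 / 2) :
    ∃ a n : ℕ, a ≤ n ∧ a ≡ s [MOD f] ∧ n ≡ t [MOD f] ∧ |(a : ℝ) * lam - n| ≤ η := by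
  have hfR : (0 : ℝ) < f := by exact_mod_cast hf
  obtain ⟨J, hJ⟩ := dens_lam (η / f) (by positivity)
  obtain ⟨j, _, i, hi⟩ := hJ (-((s : ℝ) * lam - t) / f)
  obtain ⟨a, ha⟩ : ∃ a : ℕ, a = s + f * j := ⟨_, rfl⟩
  have hkey : |(a : ℝ) * lam - ((t : ℝ) + f * i)| ≤ η := by
    have h1 : (a : ℝ) * lam - ((t : ℝ) + f * i) =
        f * ((j : ℝ) * lam - i - -((s : ℝ) * lam - t) / f) := by
      rw [ha]
      push_cast
      field_simp
      ring
    rw [h1, abs_mul, abs_of_pos hfR]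
    calc (f : ℝ) * |(j : ℝ) * lam - i - -((s : ℝ) * lam - t) / f| ≤ f * (η / f) :=
          mul_le_mul_of_nonneg_left hi hfR.le
      _ = η := by field_simp
  have hlam := lam_bounds
  have hna : (a : ℤ) ≤ t + f * i := by
    have h1 := (abs_le.1 hkey).2
    by_contra hcon
    push Not at hcon
    have h2 : ((t + f * i : ℤ) : ℝ) + 1 ≤ a := by exact_mod_cast hcon
    push_cast at h2
    have h3 : (0 : ℝ) ≤ a := Nat.cast_nonneg _
    nlinarith [hlam.1]
  obtain ⟨n, hn⟩ : ∃ n : ℕ, (n : ℤ) = t + f * i :=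
    ⟨(t + f * i : ℤ).toNat, Int.toNat_of_nonneg (by omega)⟩
  refine ⟨a, n, by omega, ?_, ?_, ?_⟩
  · rw [ha]
    unfold Nat.ModEq
    simp
  · have h1 : (n : ℤ) ≡ t [ZMOD f] := by
      rw [hn]
      exact (Int.modEq_iff_dvd).2 ⟨-i, by ring⟩
    exact (Int.natCast_modEq_iff).1 h1
  · have h2 : (n : ℝ) = (t : ℝ) + f * i := by exact_mod_cast hn
    rw [h2]
    exact hkey

theorem rr_tendsto : Tendsto rr atTop (𝓝 0) := by
  have h1 : Tendsto (fun u : ℝ => Real.log (u + 2) / Real.sqrt u) atTop (𝓝 0) := by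
    have h2 : Tendsto (fun u : ℝ => Real.log (u + 2) / Real.sqrt (u + 2)) atTop (𝓝 0) := by
      have h3 := (isLittleO_log_rpow_atTop (by norm_num : (0 : ℝ) < 1 / 2)).tendsto_div_nhds_zero
      have h4 := h3.comp (tendsto_atTop_add_const_right atTop (2 : ℝ) tendsto_id)
      refine h4.congr fun u => ?_
      simp only [Function.comp_apply, id_eq]
      rw [Real.sqrt_eq_rpow]
    have h5 : Tendsto (fun u : ℝ => 2 * (Real.log (u + 2) / Real.sqrt (u + 2))) atTop (𝓝 0) := by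
      simpa using h2.const_mul 2
    refine tendsto_of_tendsto_of_tendsto_of_le_of_le' tendsto_const_nhds h5 ?_ ?_
    · filter_upwards [eventually_ge_atTop (1 : ℝ)] with u hu
      have : 0 ≤ Real.log (u + 2) := Real.log_nonneg (by linarith)
      positivity
    · filter_upwards [eventually_ge_atTop (1 : ℝ)] with u hu
      have h6 : 0 ≤ Real.log (u + 2) := Real.log_nonneg (by linarith)
      have h7 : 0 < Real.sqrt u := Real.sqrt_pos.2 (by linarith)
      have h8 : 0 < Real.sqrt (u + 2) := Real.sqrt_pos.2 (by linarith)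
      have h9 : Real.sqrt (u + 2) ≤ 2 * Real.sqrt u := by
        have h10 : 2 * Real.sqrt u = Real.sqrt (4 * u) := by
          rw [Real.sqrt_mul (by norm_num), show (4 : ℝ) = 2 ^ 2 by norm_num, Real.sqrt_sq (by norm_num)]
        rw [h10]
        exact Real.sqrt_le_sqrt (by linarith)
      rw [← mul_div_assoc, div_le_div_iff₀ h7 h8]
      nlinarith
  exact h1.comp Real.tendsto_log_atTop

/-- Two classes which differ by a translation by `d h`. -/
theorem pair_tendsto {d : ℤ} (hd : Odd d) {C : ℝ} (hC : 0 ≤ C) (hLC : LCQ d C) {b : ℝ} (hb : 0 ≤ b)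
    {S : Set ℤ} (hS : Inv d b S) {P P' : ℤ → Prop} (h : ℤ) (hP : ∀ x, P x → P' (x + d * h))
    (hP' : ∀ x, P' x → P (x - d * h)) :
    Tendsto (fun Z : ℝ => ((ac {x | x ∈ S ∧ P x} Z : ℝ) - ac {x | x ∈ S ∧ P' x} Z) / Z) atTop
      (𝓝 0) := by
  by_cases hh : h = 0
  · have : {x | x ∈ S ∧ P x} = {x | x ∈ S ∧ P' x} := by
      ext x
      simp only [Set.mem_ofPred_eq]
      refine and_congr_right fun _ => ⟨fun h1 => ?_, fun h1 => ?_⟩
      · have := hP x h1
        rwa [hh, mul_zero, add_zero] at this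
      · have := hP' x h1
        rwa [hh, mul_zero, sub_zero] at this
    simp [this]
  · obtain ⟨K, hK0, hK⟩ := xc_quant hd hC hLC hb
    have key : ∀ (g : ℤ) (P P' : ℤ → Prop), (∀ x, P x → P' (x + g)) → ∀ Z : ℝ,
        (ac {x | x ∈ S ∧ P x} Z : ℝ) ≤ ac {x | x ∈ S ∧ P' x} Z + xc S g Z + 2 * |(g : ℝ)| := by
      intro g P P' hPP Z
      classical
      set A : Set ℤ := {x : ℤ | 1 ≤ x ∧ (x : ℝ) < Z ∧ x ∈ {x | x ∈ S ∧ P' x}} with hA
      set X : Set ℤ := {x : ℤ | 1 ≤ x ∧ (x : ℝ) < Z ∧ ¬ (x ∈ S ↔ x + g ∈ S)} with hX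
      set B : Finset ℤ := Finset.Ico (⌈Z⌉ - g.natAbs) ⌈Z⌉ ∪ Finset.Ico 1 (1 + (g.natAbs : ℤ)) with hB
      have hBc : B.card ≤ 2 * g.natAbs := by
        refine (Finset.card_union_le _ _).trans ?_
        rw [Int.card_Ico, Int.card_Ico]
        omega
      have hAf : A.Finite := fin_one Z _
      have hXf : X.Finite := fin_one Z _
      have hsub : {x : ℤ | 1 ≤ x ∧ (x : ℝ) < Z ∧ x ∈ {x | x ∈ S ∧ P x}} ⊆
          ((fun y : ℤ => y - g) '' A ∪ X) ∪ (B : Set ℤ) := by
        rintro x ⟨hx1, hx2, hx3, hx4⟩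
        by_cases h1 : x + g ∈ S
        · by_cases h2 : 1 ≤ x + g
          · by_cases h3 : ((x + g : ℤ) : ℝ) < Z
            · exact Or.inl (Or.inl ⟨x + g, ⟨h2, h3, h1, hPP x hx4⟩, by simp⟩)
            · right
              rw [hB, Finset.mem_coe, Finset.mem_union, Finset.mem_Ico]
              left
              push Not at h3
              have h4 : ⌈Z⌉ ≤ x + g := Int.ceil_le.2 h3
              have h5 : x < ⌈Z⌉ := Int.lt_ceil.2 hx2
              omega
          · right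
            rw [hB, Finset.mem_coe, Finset.mem_union, Finset.mem_Ico, Finset.mem_Ico]
            right
            omega
        · exact Or.inl (Or.inr ⟨hx1, hx2, fun h => h1 (h.1 hx3)⟩)
      have hfin : (((fun y : ℤ => y - g) '' A ∪ X) ∪ (B : Set ℤ)).Finite :=
        ((hAf.image _).union hXf).union (Finset.finite_toSet _)
      have h1 := Set.ncard_le_ncard hsub hfin
      have h2 := Set.ncard_union_le ((fun y : ℤ => y - g) '' A ∪ X) (B : Set ℤ)
      have h3 := Set.ncard_union_le ((fun y : ℤ => y - g) '' A) X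
      have h4 := Set.ncard_image_le (f := fun y : ℤ => y - g) hAf
      rw [Set.ncard_coe_finset] at h2
      have h5 : ac {x | x ∈ S ∧ P' x} Z = A.ncard := rfl
      have h6 : xc S g Z = X.ncard := rfl
      have h7 : ac {x | x ∈ S ∧ P x} Z =
          {x : ℤ | 1 ≤ x ∧ (x : ℝ) < Z ∧ x ∈ {x | x ∈ S ∧ P x}}.ncard := rfl
      have h8 : ac {x | x ∈ S ∧ P x} Z ≤ ac {x | x ∈ S ∧ P' x} Z + xc S g Z + 2 * g.natAbs := by
        omega
      have h9 : ((g.natAbs : ℕ) : ℝ) = |(g : ℝ)| := by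
        rw [← Int.cast_abs, Int.abs_eq_natAbs]
        simp
      rw [← h9]
      exact_mod_cast h8
    have hlim : ∀ A B : ℝ, Tendsto (fun Z : ℝ => A * rr Z + B / Z) atTop (𝓝 0) := by
      intro A B
      have h1 := rr_tendsto.const_mul A
      have h2 : Tendsto (fun Z : ℝ => B / Z) atTop (𝓝 0) := tendsto_const_nhds.div_atTop tendsto_id
      simpa using h1.add h2
    have hneg : -h ≠ 0 := neg_ne_zero.2 hh
    obtain ⟨L, hL⟩ : ∃ L : ℝ, L = Real.log (2 + |(h : ℝ)|) := ⟨_, rfl⟩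
    have hup : ∀ᶠ Z : ℝ in atTop, |((ac {x | x ∈ S ∧ P x} Z : ℝ) - ac {x | x ∈ S ∧ P' x} Z) / Z| ≤
        K * L * rr Z + (2 * |((d * h : ℤ) : ℝ)|) / Z := by
      filter_upwards [eventually_ge_atTop (2 : ℝ)] with Z hZ
      have hZ0 : 0 < Z := by linarith
      have e1 := key (d * h) P P' hP Z
      have e2 := key (d * (-h)) P' P (fun x hx => by
        have := hP' x hx
        rwa [show x - d * h = x + d * (-h) by ring] at this) Z
      have e3 := hK S hS h hh Z hZ
      have e4 := hK S hS (-h) hneg Z hZ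
      have e5 : |((d * (-h) : ℤ) : ℝ)| = |((d * h : ℤ) : ℝ)| := by
        rw [mul_neg]
        push_cast
        rw [abs_neg]
      have e6 : |((-h : ℤ) : ℝ)| = |(h : ℝ)| := by push_cast; rw [abs_neg]
      rw [e6, ← hL] at e4
      rw [← hL] at e3
      rw [e5] at e2
      rw [abs_div, abs_of_pos hZ0, div_le_iff₀ hZ0]
      have e7 : (K * L * rr Z + (2 * |((d * h : ℤ) : ℝ)|) / Z) * Z =
          K * L * rr Z * Z + 2 * |((d * h : ℤ) : ℝ)| := by
        field_simp
      rw [e7, abs_le]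
      constructor <;> linarith
    exact squeeze_zero_norm' (by simpa only [Real.norm_eq_abs] using hup) (hlim _ _)

end Pool.Agent.Lib.MP_d0d59f_nt.ND
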