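import Pool.Agent.Lib.MP_d0d59f_nt.ND.V4a

/-! The densities in the residue classes modulo a divisor of `d`: the harmonic equation. -/

namespace Pool.Agent.Lib.MP_d0d59f_nt.ND

open Finset AA Filter Topology

theorem ac_mono {S S' : Set ℤ} (h : S ⊆ S') (Z : ℝ) : ac S Z ≤ ac S' Z :=
  Set.ncard_le_ncard (fun _ hx => ⟨hx.1, hx.2.1, h hx.2.2⟩) (fin_one Z _)

/-- Counting up to a finite set of exceptions. -/
theorem ncard_near {A B : Set ℤ} (hA : A.Finite) (hB : B.Finite) (E : Finset ℤ)
    (h1 : A ⊆ B ∪ E) (h2 : B ⊆ A ∪ E) : |(A.ncard : ℝ) - B.ncard| ≤ E.card := by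
  have a1 := Set.ncard_le_ncard h1 (hB.union (Finset.finite_toSet _))
  have a2 := Set.ncard_union_le B (E : Set ℤ)
  have a3 := Set.ncard_le_ncard h2 (hA.union (Finset.finite_toSet _))
  have a4 := Set.ncard_union_le A (E : Set ℤ)
  rw [Set.ncard_coe_finset] at a2 a4
  have b1 : (A.ncard : ℝ) ≤ B.ncard + E.card := by exact_mod_cast a1.trans a2
  have b2 : (B.ncard : ℝ) ≤ A.ncard + E.card := by exact_mod_cast a3.trans a4
  rw [abs_le]
  constructor <;> linarith

/-- One step of `T_d`: the elements of `S` in the class of `2 ρ` modulo a divisor `g` of `d`. -/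
theorem harm_count {d : ℤ} (hd : Odd d) (h3 : ¬ (3 : ℤ) ∣ d) {b : ℝ} {S : Set ℤ}
    (hS : Inv d b S) {g : ℕ} (hg : (g : ℤ) ∣ d) (ρ : ℤ) : ∃ K : ℝ, ∀ Z : ℝ,
    |(ac {x | x ∈ S ∧ x ≡ 2 * ρ [ZMOD g]} Z : ℝ) - ac {x | x ∈ S ∧ x ≡ ρ [ZMOD g]} (Z / 2) -
      ac {x | x ∈ S ∧ (x ≡ 3 * ρ [ZMOD g] ∧ x ≡ 2 * d [ZMOD 3])} (3 * Z / 2)| ≤ K := by
  classical
  -- a natural bound
  obtain ⟨B, hB⟩ : ∃ B : ℤ, b ≤ B ∧ |d| ≤ B ∧ 1 ≤ B := by
    refine ⟨max ⌈b⌉ (max |d| 1), ?_, ?_, ?_⟩
    · exact (Int.le_ceil b).trans (by exact_mod_cast le_max_left _ _)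
    · exact (le_max_left _ _).trans (le_max_right _ _)
    · exact (le_max_right _ _).trans (le_max_right _ _)
  obtain ⟨hbB, hdB, hB1⟩ := hB
  obtain ⟨dg, hdg⟩ := hg
  have hgodd : Odd (g : ℤ) := by
    rw [hdg] at hd
    exact (Int.odd_mul.1 hd).1
  have hinv : ∀ x : ℤ, B < x → (x ∈ S ↔ T d x ∈ S) := by
    intro x hx
    refine hS x ?_
    have h6 : (B : ℝ) < (x : ℝ) := by exact_mod_cast hx
    exact lt_of_le_of_lt hbB (lt_of_lt_of_le h6 (le_abs_self _))
  refine ⟨4 * B + 4 * B + 10, fun Z => ?_⟩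
  -- the even and the odd elements
  obtain ⟨E, hE⟩ : ∃ E : Set ℤ, E = {x : ℤ | 1 ≤ x ∧ (x : ℝ) < Z ∧ (x ∈ S ∧ x ≡ 2 * ρ [ZMOD g] ∧ Even x)} :=
    ⟨_, rfl⟩
  obtain ⟨O, hO⟩ : ∃ O : Set ℤ, O = {x : ℤ | 1 ≤ x ∧ (x : ℝ) < Z ∧ (x ∈ S ∧ x ≡ 2 * ρ [ZMOD g] ∧ Odd x)} :=
    ⟨_, rfl⟩
  have hEf : E.Finite := by rw [hE]; exact fin_one Z _
  have hOf : O.Finite := by rw [hO]; exact fin_one Z _
  have hsplit : (ac {x | x ∈ S ∧ x ≡ 2 * ρ [ZMOD g]} Z : ℝ) = E.ncard + O.ncard := by
    have h1 : {x : ℤ | 1 ≤ x ∧ (x : ℝ) < Z ∧ x ∈ {x | x ∈ S ∧ x ≡ 2 * ρ [ZMOD g]}} = E ∪ O := by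
      ext x
      simp only [hE, hO, Set.mem_union, Set.mem_ofPred_eq]
      rcases Int.even_or_odd x with h | h
      · have : ¬ Odd x := Int.not_odd_iff_even.2 h
        tauto
      · have : ¬ Even x := Int.not_even_iff_odd.2 h
        tauto
    have h2 : Disjoint E O := by
      rw [Set.disjoint_left]
      intro x hx1 hx2
      rw [hE] at hx1
      rw [hO] at hx2
      exact (Int.not_even_iff_odd.2 hx2.2.2.2.2) hx1.2.2.2.2
    unfold ac
    rw [h1, Set.ncard_union_eq h2 hEf hOf]
    push_cast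
    ring
  -- even elements
  have hEven : |(E.ncard : ℝ) - ac {x | x ∈ S ∧ x ≡ ρ [ZMOD g]} (Z / 2)| ≤ 2 * B + 1 := by
    obtain ⟨E', hE'⟩ : ∃ E' : Set ℤ, E' = {y : ℤ | 1 ≤ y ∧ (y : ℝ) < Z / 2 ∧ (2 * y ∈ S ∧ y ≡ ρ [ZMOD g])} :=
      ⟨_, rfl⟩
    have hE'f : E'.Finite := by rw [hE']; exact fin_one _ _
    have hcard : E.ncard = E'.ncard := by
      have h1 : E = (fun y : ℤ => 2 * y) '' E' := by
        ext x
        simp only [hE, hE', Set.mem_image, Set.mem_ofPred_eq]
        constructor
        · rintro ⟨h1, h2, h3, h4, h5⟩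
          obtain ⟨y, hy⟩ := h5
          have hxy : x = 2 * y := by omega
          subst hxy
          refine ⟨y, ⟨by omega, by push_cast at h2; linarith, h3, ?_⟩, rfl⟩
          have h6 := (Int.modEq_iff_dvd).1 h4
          have h7 : (g : ℤ) ∣ 2 * (ρ - y) := by
            rwa [show 2 * (ρ - y) = 2 * ρ - 2 * y by ring]
          have h8 : IsCoprime (g : ℤ) 2 := (Int.isCoprime_iff_gcd_eq_one.2 (by
            obtain ⟨k, hk⟩ := hgodd
            have : Int.gcd (g : ℤ) 2 = 1 := by
              rw [hk]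
              have : Int.gcd (2 * k + 1) 2 = 1 := by
                rw [Int.gcd_comm, show (2 * k + 1 : ℤ) = 1 + 2 * k by ring, Int.gcd_add_mul_left_right]
                simp
              exact this
            exact this))
          exact (Int.modEq_iff_dvd).2 (h8.dvd_of_dvd_mul_left h7)
        · rintro ⟨y, ⟨h1, h2, h3, h4⟩, rfl⟩
          exact ⟨by omega, by push_cast; linarith, h3, Int.ModEq.mul_left 2 h4, ⟨y, by ring⟩⟩
      rw [h1, Set.ncard_image_of_injective _ (fun a b h => by
        have : 2 * a = 2 * b := h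
        omega)]
    have h5 := ncard_near (A := E') (B := {x : ℤ | 1 ≤ x ∧ (x : ℝ) < Z / 2 ∧
      x ∈ {x | x ∈ S ∧ x ≡ ρ [ZMOD g]}}) hE'f (fin_one _ _) (Finset.Icc 0 B) (by
        rintro y hy
        rw [hE'] at hy
        obtain ⟨h1, h2, h3, h4⟩ := hy
        by_cases hyB : y ≤ B
        · right
          rw [Finset.mem_coe, Finset.mem_Icc]
          omega
        · left
          have h6 : B < 2 * y := by omega
          have h7 := (hinv (2 * y) h6).1 h3
          have h8 : T d (2 * y) = y := by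
            unfold T
            rw [if_pos (by omega)]
            omega
          rw [h8] at h7
          exact ⟨h1, h2, h7, h4⟩) (by
        rintro y ⟨h1, h2, h3, h4⟩
        by_cases hyB : y ≤ B
        · right
          rw [Finset.mem_coe, Finset.mem_Icc]
          omega
        · left
          have h6 : B < 2 * y := by omega
          have h8 : T d (2 * y) = y := by
            unfold T
            rw [if_pos (by omega)]
            omega
          rw [hE']
          exact ⟨h1, h2, (hinv (2 * y) h6).2 (by rw [h8]; exact h3), h4⟩)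
    rw [hcard]
    refine h5.trans ?_
    rw [Int.card_Icc]
    have h6 : (((B + 1 - 0).toNat : ℤ) : ℝ) = ((B + 1 : ℤ) : ℝ) := by
      rw [Int.toNat_of_nonneg (by omega)]
      simp
    rw [Int.cast_natCast] at h6
    rw [h6]
    push_cast
    have : (1 : ℝ) ≤ B := by exact_mod_cast hB1
    linarith
  -- odd elements
  have hOdd : |(O.ncard : ℝ) - ac {x | x ∈ S ∧ (x ≡ 3 * ρ [ZMOD g] ∧ x ≡ 2 * d [ZMOD 3])} (3 * Z / 2)| ≤
      6 * B + 8 := by
    obtain ⟨O', hO'⟩ : ∃ O' : Set ℤ, O' = (fun x : ℤ => T d x) '' O := ⟨_, rfl⟩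
    have hTodd : ∀ x : ℤ, Odd x → 2 * T d x = 3 * x + d := by
      intro x hx
      obtain ⟨u, hu⟩ := hx
      obtain ⟨v, hv⟩ := hd
      unfold T
      rw [if_neg (by omega)]
      omega
    have hcard : O.ncard = O'.ncard := by
      rw [hO', Set.InjOn.ncard_image]
      intro x hx y hy hxy
      rw [hO] at hx hy
      have h1 := hTodd x hx.2.2.2.2
      have h2 := hTodd y hy.2.2.2.2
      have h3 : T d x = T d y := hxy
      omega
    have hO'f : O'.Finite := by rw [hO']; exact hOf.image _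
    have hdneg := neg_abs_le d
    have hdpos := le_abs_self d
    have h5 := ncard_near (A := O') (B := {x : ℤ | 1 ≤ x ∧ (x : ℝ) < 3 * Z / 2 ∧
      x ∈ {x | x ∈ S ∧ (x ≡ 3 * ρ [ZMOD g] ∧ x ≡ 2 * d [ZMOD 3])}}) hO'f (fin_one _ _)
      (Finset.Icc (-B) (3 * B) ∪ Finset.Icc (⌈3 * Z / 2⌉ - B) (⌈3 * Z / 2⌉ + B)) (by
        rintro y hy
        rw [hO', hO] at hy
        obtain ⟨x, ⟨h1, h2, h3x, h4, h5⟩, hxy⟩ := hy
        have hxy' : T d x = y := hxy
        have h6 := hTodd x h5
        rw [hxy'] at h6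
        by_cases hxB : x ≤ B
        · right
          rw [Finset.mem_coe, Finset.mem_union, Finset.mem_Icc]
          left
          omega
        · have h7 := (hinv x (by omega)).1 h3x
          rw [hxy'] at h7
          by_cases hyZ : (y : ℝ) < 3 * Z / 2
          · left
            refine ⟨by omega, hyZ, h7, ?_, ?_⟩
            · -- `y ≡ 3 ρ`
              have h8 : (g : ℤ) ∣ 2 * (3 * ρ - y) := by
                obtain ⟨k, hk⟩ := (Int.modEq_iff_dvd).1 h4
                refine ⟨3 * k - dg, ?_⟩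
                have : 2 * (3 * ρ - y) = 3 * (2 * ρ - x) - d := by linarith
                rw [this, hk, hdg]
                ring
              have h9 : IsCoprime (g : ℤ) 2 := (Int.isCoprime_iff_gcd_eq_one.2 (by
                obtain ⟨k, hk⟩ := hgodd
                rw [hk, Int.gcd_comm, show (2 * k + 1 : ℤ) = 1 + 2 * k by ring,
                  Int.gcd_add_mul_left_right]
                simp))
              exact (Int.modEq_iff_dvd).2 (h9.dvd_of_dvd_mul_left h8)
            · exact (Int.modEq_iff_dvd).2 (by omega)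
          · right
            push Not at hyZ
            rw [Finset.mem_coe, Finset.mem_union, Finset.mem_Icc, Finset.mem_Icc]
            right
            have h8 : ⌈3 * Z / 2⌉ ≤ y := Int.ceil_le.2 hyZ
            have h9 : y ≤ ⌈3 * Z / 2⌉ + B := by
              have h10 : (y : ℝ) < 3 * Z / 2 + B := by
                have h11 : (2 : ℝ) * y = 3 * x + d := by exact_mod_cast h6
                have h12 : (d : ℝ) ≤ B := by exact_mod_cast hdpos.trans hdB
                have h13 : (1 : ℝ) ≤ B := by exact_mod_cast hB1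
                linarith
              have h11 : (y : ℝ) < ((⌈3 * Z / 2⌉ + B : ℤ) : ℝ) := by
                push_cast
                linarith [Int.le_ceil (3 * Z / 2)]
              have : y < ⌈3 * Z / 2⌉ + B := by exact_mod_cast h11
              omega
            omega) (by
        rintro y ⟨h1, h2, h3y, h4, h5⟩
        by_cases hyB : y ≤ 3 * B
        · right
          rw [Finset.mem_coe, Finset.mem_union, Finset.mem_Icc]
          left
          omega
        · -- `x = (2 y - d) / 3`
          obtain ⟨k, hk⟩ := (Int.modEq_iff_dvd).1 h5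
          obtain ⟨x, hx⟩ : ∃ x : ℤ, x = d - 2 * k := ⟨_, rfl⟩
          have hyx : 2 * y = 3 * x + d := by omega
          have hxB : B < x := by omega
          have hxodd : Odd x := by
            obtain ⟨v, hv⟩ := hd
            exact ⟨v - k, by omega⟩
          have hTx : T d x = y := by
            have := hTodd x hxodd
            omega
          by_cases hxZ : (x : ℝ) < Z
          · left
            rw [hO', hO]
            refine ⟨x, ⟨by omega, hxZ, (hinv x hxB).2 (by rw [hTx]; exact h3y), ?_, hxodd⟩, hTx⟩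
            have h8 : (g : ℤ) ∣ 3 * (2 * ρ - x) := by
              obtain ⟨m, hm⟩ := (Int.modEq_iff_dvd).1 h4
              refine ⟨2 * m + dg, ?_⟩
              have : 3 * (2 * ρ - x) = 2 * (3 * ρ - y) + d := by linarith
              rw [this, hm, hdg]
              ring
            have h9 : IsCoprime (g : ℤ) 3 := by
              have h10 : ¬ (3 : ℤ) ∣ (g : ℤ) := fun h => h3 (hdg ▸ h.mul_right dg)
              exact ((Prime.coprime_iff_not_dvd Int.prime_three).2 h10).symm
            exact (Int.modEq_iff_dvd).2 (h9.dvd_of_dvd_mul_left h8)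
          · right
            push Not at hxZ
            rw [Finset.mem_coe, Finset.mem_union, Finset.mem_Icc, Finset.mem_Icc]
            right
            have h8 : y < ⌈3 * Z / 2⌉ := Int.lt_ceil.2 h2
            have h9 : ⌈3 * Z / 2⌉ - B ≤ y := by
              have h10 : 3 * Z / 2 ≤ ((y + B : ℤ) : ℝ) := by
                have h11 : (2 : ℝ) * y = 3 * x + d := by exact_mod_cast hyx
                have h12 : -(B : ℝ) ≤ (d : ℝ) := by
                  have : -B ≤ d := by omega
                  exact_mod_cast this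
                push_cast
                linarith
              have := Int.ceil_le.2 h10
              omega
            omega)
    rw [hcard]
    refine h5.trans ?_
    have h6 := Finset.card_union_le (Finset.Icc (-B) (3 * B))
      (Finset.Icc (⌈3 * Z / 2⌉ - B) (⌈3 * Z / 2⌉ + B))
    rw [Int.card_Icc, Int.card_Icc] at h6
    have h7 : (((Finset.Icc (-B) (3 * B) ∪ Finset.Icc (⌈3 * Z / 2⌉ - B) (⌈3 * Z / 2⌉ + B)).card : ℤ)) ≤
        6 * B + 8 := by omega
    exact_mod_cast h7
  rw [hsplit]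
  have e1 := abs_le.1 hEven
  have e2 := abs_le.1 hOdd
  rw [abs_le]
  constructor <;> linarith [e1.1, e1.2, e2.1, e2.2]

end Pool.Agent.Lib.MP_d0d59f_nt.ND
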