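import Mathlib

/-! A finite family of functions on the half line which satisfies a harmonic equation and whose sum
converges: all of them converge to the same limit. -/

namespace Pool.Agent.Lib.MP_d0d59f_nt.ND

open Finset Filter Topology

section
variable {G : Type*} [CommGroup G] [Fintype G]

theorem harm_limit (F : G → ℝ → ℝ) (p q : G) (A : ℝ)
    (h0 : ∀ u Z, 1 ≤ Z → 0 ≤ F u Z ∧ F u Z ≤ 1)
    (hL : ∀ u Z Z', 1 ≤ Z → Z ≤ Z' → |Z' * F u Z' - Z * F u Z| ≤ (Z' - Z) + 1)
    (hH : ∀ u, Tendsto (fun Z => F u Z - F (p * u) (Z / 2) / 2 - F (q * u) (3 * Z / 2) / 2) atTop (𝓝 0))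
    (hA : Tendsto (fun Z => ∑ u, F u Z) atTop (𝓝 A))
    (hD : ∀ v : G, ∀ η : ℝ, 0 < η → ∃ k a : ℕ, p ^ k * q ^ a = v ∧
      |(1 / 2 : ℝ) ^ k * (3 / 2) ^ a - 1| ≤ η) (u : G) :
    Tendsto (F u) atTop (𝓝 (A / Fintype.card G)) := by
  classical
  have hbdd : ∀ u, IsBoundedUnder (· ≤ ·) atTop (F u) := fun u =>
    ⟨1, eventually_map.2 ((eventually_ge_atTop 1).mono fun Z hZ => (h0 u Z hZ).2)⟩
  have hbdd' : ∀ u, IsBoundedUnder (· ≥ ·) atTop (F u) := fun u =>
    ⟨0, eventually_map.2 ((eventually_ge_atTop 1).mono fun Z hZ => (h0 u Z hZ).1)⟩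
  -- the maximal upper limit
  obtain ⟨u0, _, hu0⟩ := Finset.exists_max_image (Finset.univ : Finset G)
    (fun u => limsup (F u) atTop) ⟨1, Finset.mem_univ _⟩
  obtain ⟨m, hm⟩ : ∃ m : ℝ, m = limsup (F u0) atTop := ⟨_, rfl⟩
  have hup : ∀ v : G, ∀ ε : ℝ, 0 < ε → ∀ᶠ Z in atTop, F v Z < m + ε := by
    intro v ε hε
    have h1 : limsup (F v) atTop < m + ε := by
      have := hu0 v (Finset.mem_univ _)
      rw [hm]
      linarith
    exact eventually_lt_of_limsup_lt h1 (hbdd v)
  have hlow : ∀ ε : ℝ, 0 < ε → ∃ᶠ Z in atTop, m - ε < F u0 Z := by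
    intro ε hε
    refine frequently_lt_of_lt_limsup ((hbdd' u0).isCoboundedUnder_le) ?_
    rw [← hm]
    linarith
  -- an ultrafilter along which `F u0` tends to `m`
  have hcl : MapClusterPt m atTop (F u0) := by
    rw [mapClusterPt_iff_frequently]
    intro s hs
    obtain ⟨ε, hε, hball⟩ := Metric.mem_nhds_iff.1 hs
    refine ((hlow ε hε).and_eventually (hup u0 ε hε)).mono ?_
    rintro Z ⟨h1, h2⟩
    apply hball
    rw [Metric.mem_ball, Real.dist_eq, abs_lt]
    constructor <;> linarith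
  obtain ⟨U, hU, hUm⟩ := mapClusterPt_iff_ultrafilter.1 hcl
  -- propagation
  have hstep : ∀ (v : G) (c : ℝ), 0 < c → Tendsto (fun Z => F v (c * Z)) U (𝓝 m) →
      Tendsto (fun Z => F (p * v) (c / 2 * Z)) U (𝓝 m) ∧
      Tendsto (fun Z => F (q * v) (3 * c / 2 * Z)) U (𝓝 m) := by
    intro v c hc hv
    have hmul : ∀ c' : ℝ, 0 < c' → Tendsto (fun Z : ℝ => c' * Z) (U : Filter ℝ) atTop := fun c' hc' =>
      (tendsto_id.const_mul_atTop hc').mono_left hU
    have e1 := (hH v).comp (hmul c hc)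
    have e2 : ∀ ε : ℝ, 0 < ε → ∀ᶠ Z in (U : Filter ℝ), F (p * v) (c / 2 * Z) < m + ε := fun ε hε =>
      (hmul (c / 2) (by positivity)).eventually (hup (p * v) ε hε)
    have e3 : ∀ ε : ℝ, 0 < ε → ∀ᶠ Z in (U : Filter ℝ), F (q * v) (3 * c / 2 * Z) < m + ε := fun ε hε =>
      (hmul (3 * c / 2) (by positivity)).eventually (hup (q * v) ε hε)
    have e4 : ∀ ε : ℝ, 0 < ε → ∀ᶠ Z in (U : Filter ℝ), |F v (c * Z) - m| < ε ∧
        |F v (c * Z) - F (p * v) (c / 2 * Z) / 2 - F (q * v) (3 * c / 2 * Z) / 2| < ε := by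
      intro ε hε
      have a1 := (Metric.tendsto_nhds.1 hv) ε hε
      have a2 := (Metric.tendsto_nhds.1 e1) ε hε
      filter_upwards [a1, a2] with Z h1 h2
      rw [Real.dist_eq] at h1 h2
      refine ⟨h1, ?_⟩
      simp only [Function.comp_apply, sub_zero] at h2
      rwa [show c * Z / 2 = c / 2 * Z by ring, show 3 * (c * Z) / 2 = 3 * c / 2 * Z by ring] at h2
    constructor
    · rw [Metric.tendsto_nhds]
      intro ε hε
      filter_upwards [e2 ε hε, e3 (ε / 8) (by positivity), e4 (ε / 8) (by positivity)] with Z h1 h2 h3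
      obtain ⟨h3, h4⟩ := h3
      rw [abs_lt] at h3 h4
      rw [Real.dist_eq, abs_lt]
      constructor <;> linarith [h3.1, h3.2, h4.1, h4.2]
    · rw [Metric.tendsto_nhds]
      intro ε hε
      filter_upwards [e3 ε hε, e2 (ε / 8) (by positivity), e4 (ε / 8) (by positivity)] with Z h1 h2 h3
      obtain ⟨h3, h4⟩ := h3
      rw [abs_lt] at h3 h4
      rw [Real.dist_eq, abs_lt]
      constructor <;> linarith [h3.1, h3.2, h4.1, h4.2]
  have hk : ∀ k : ℕ, Tendsto (fun Z => F (p ^ k * u0) ((1 / 2 : ℝ) ^ k * Z)) U (𝓝 m) := by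
    intro k
    induction k with
    | zero => simpa using hUm
    | succ k ih =>
      have := (hstep _ _ (by positivity) ih).1
      rw [← mul_assoc, ← pow_succ'] at this
      refine this.congr fun Z => ?_
      congr 1
      ring
  have hka : ∀ a k : ℕ, Tendsto (fun Z => F (p ^ k * q ^ a * u0) ((1 / 2 : ℝ) ^ k * (3 / 2) ^ a * Z)) U
      (𝓝 m) := by
    intro a
    induction a with
    | zero =>
      intro k
      simpa using hk k
    | succ a ih =>
      intro k
      have := (hstep _ _ (by positivity) (ih k)).2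
      rw [show q * (p ^ k * q ^ a * u0) = p ^ k * q ^ (a + 1) * u0 by
        rw [pow_succ, ← mul_assoc, ← mul_assoc, mul_comm q (p ^ k), mul_assoc (p ^ k) q,
          mul_comm q (q ^ a), ← mul_assoc]] at this
      refine this.congr fun Z => ?_
      congr 1
      ring
  -- all of them tend to `m` along `U`
  have hall : ∀ v : G, ∀ ε : ℝ, 0 < ε → ∀ᶠ Z in (U : Filter ℝ), m - ε < F v Z := by
    intro v ε hε
    obtain ⟨η, hη⟩ : ∃ η : ℝ, η = min (ε / 8) (1 / 2) := ⟨_, rfl⟩
    have hη0 : 0 < η := by rw [hη]; positivity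
    have hη1 : η ≤ ε / 8 := by rw [hη]; exact min_le_left _ _
    have hη2 : η ≤ 1 / 2 := by rw [hη]; exact min_le_right _ _
    obtain ⟨k, a, hka1, hka2⟩ := hD (v * u0⁻¹) η hη0
    have h1 := hka a k
    rw [hka1, inv_mul_cancel_right] at h1
    obtain ⟨c, hc⟩ : ∃ c : ℝ, c = (1 / 2 : ℝ) ^ k * (3 / 2) ^ a := ⟨_, rfl⟩
    rw [← hc] at h1 hka2
    have h2 := (Metric.tendsto_nhds.1 h1) (ε / 8) (by positivity)
    have h3 : ∀ᶠ Z in (U : Filter ℝ), max 2 (8 / ε) ≤ Z := hU (eventually_ge_atTop _)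
    filter_upwards [h2, h3] with Z h2 h3
    have hZ2 : 2 ≤ Z := (le_max_left _ _).trans h3
    have hZε : 8 / ε ≤ Z := (le_max_right _ _).trans h3
    have hZ0 : 0 < Z := by linarith
    have hc1 := abs_le.1 hka2
    have hcZ : 1 ≤ c * Z := by nlinarith [hc1.1]
    have hinvZ : 1 / Z ≤ ε / 8 := by
      rw [div_le_iff₀ hZ0]
      rw [div_le_iff₀ hε] at hZε
      linarith
    have h4 : |c * Z * F v (c * Z) - Z * F v Z| ≤ η * Z + 1 := by
      rcases le_total Z (c * Z) with h | h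
      · have := hL v Z (c * Z) (by linarith) h
        refine this.trans ?_
        nlinarith [hc1.2]
      · have := hL v (c * Z) Z hcZ h
        rw [abs_sub_comm] at this
        refine this.trans ?_
        nlinarith [hc1.1]
    have h5 := h0 v (c * Z) hcZ
    rw [Real.dist_eq, abs_lt] at h2
    have h6 := abs_le.1 h4
    -- `Z F(Z) ≥ c Z F(c Z) - η Z - 1`
    have h7 : (F v (c * Z) - 2 * η - 1 / Z) * Z ≤ F v Z * Z := by
      have h8 : (F v (c * Z) - 2 * η - 1 / Z) * Z = F v (c * Z) * Z - 2 * η * Z - 1 := by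
        field_simp
      rw [h8]
      have h9 : (1 - c) * (F v (c * Z) * Z) ≤ η * Z := by
        have h10 : (1 - c) ≤ η := by linarith [hc1.1]
        have h11 : 0 ≤ F v (c * Z) * Z := mul_nonneg h5.1 hZ0.le
        calc (1 - c) * (F v (c * Z) * Z) ≤ η * (F v (c * Z) * Z) :=
              mul_le_mul_of_nonneg_right h10 h11
          _ ≤ η * (1 * Z) := mul_le_mul_of_nonneg_left
              (mul_le_mul_of_nonneg_right h5.2 hZ0.le) hη0.le
          _ = η * Z := by ring
      nlinarith [h6.2]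
    have h12 := le_of_mul_le_mul_right h7 hZ0
    linarith [h2.1]
  have hcardpos : (0 : ℝ) < Fintype.card G := by
    exact_mod_cast Fintype.card_pos_iff.2 ⟨1⟩
  have hge : (Fintype.card G : ℝ) * m ≤ A := by
    refine le_of_forall_pos_le_add fun ε hε => ?_
    have hAU : Tendsto (fun Z => ∑ u, F u Z) (U : Filter ℝ) (𝓝 A) := hA.mono_left hU
    have h1 := (Metric.tendsto_nhds.1 hAU) (ε / 2) (by positivity)
    have h2 : ∀ᶠ Z in (U : Filter ℝ), ∀ v : G, m - ε / 2 / Fintype.card G < F v Z := by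
      rw [eventually_all]
      intro v
      exact hall v _ (by positivity)
    obtain ⟨Z, h3, h4⟩ := (h1.and h2).exists
    rw [Real.dist_eq, abs_lt] at h3
    have h5 : ∑ _v : G, (m - ε / 2 / Fintype.card G) ≤ ∑ v, F v Z :=
      Finset.sum_le_sum fun v _ => (h4 v).le
    rw [Finset.sum_const, Finset.card_univ, nsmul_eq_mul] at h5
    have h6 : (Fintype.card G : ℝ) * (m - ε / 2 / Fintype.card G) = Fintype.card G * m - ε / 2 := by
      field_simp
    linarith [h3.2]
  have hmA : m ≤ A / Fintype.card G := by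
    rw [le_div_iff₀ hcardpos]
    linarith
  -- conclusion
  rw [Metric.tendsto_nhds]
  intro ε hε
  obtain ⟨δ, hδ⟩ : ∃ δ : ℝ, δ = ε / (2 * Fintype.card G) := ⟨_, rfl⟩
  have hδ0 : 0 < δ := by rw [hδ]; positivity
  have hδε : Fintype.card G * δ = ε / 2 := by rw [hδ]; field_simp
  have hcard1 : (1 : ℝ) ≤ Fintype.card G := by
    exact_mod_cast Fintype.card_pos_iff.2 ⟨(1 : G)⟩
  have hδε' : δ ≤ ε / 2 := by nlinarith
  have h1 : ∀ᶠ Z in atTop, ∀ v : G, F v Z < A / Fintype.card G + δ := by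
    rw [eventually_all]
    intro v
    refine (hup v δ hδ0).mono fun Z hZ => ?_
    linarith
  filter_upwards [h1, (Metric.tendsto_nhds.1 hA) (ε / 2) (by positivity)] with Z h2 h3
  rw [Real.dist_eq, abs_lt] at h3
  rw [Real.dist_eq, abs_lt]
  constructor
  · have h4 : ∑ v, F v Z = F u Z + ∑ v ∈ Finset.univ.erase u, F v Z :=
      (Finset.add_sum_erase _ _ (Finset.mem_univ u)).symm
    have h5 : ∑ v ∈ Finset.univ.erase u, F v Z ≤
        ∑ _v ∈ (Finset.univ : Finset G).erase u, (A / Fintype.card G + δ) :=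
      Finset.sum_le_sum fun v _ => (h2 v).le
    rw [Finset.sum_const, Finset.card_erase_of_mem (Finset.mem_univ u), Finset.card_univ,
      nsmul_eq_mul] at h5
    have h6 : ((Fintype.card G - 1 : ℕ) : ℝ) = Fintype.card G - 1 := by
      rw [Nat.cast_sub (by exact_mod_cast hcard1)]
      simp
    rw [h6] at h5
    have h7 : ((Fintype.card G : ℝ) - 1) * (A / Fintype.card G + δ) =
        A - A / Fintype.card G + Fintype.card G * δ - δ := by
      field_simp
      ring
    rw [h7, hδε] at h5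
    linarith [h3.1]
  · have := h2 u
    linarith

end

end Pool.Agent.Lib.MP_d0d59f_nt.ND
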