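import Pool.Agent.Lib.MP_d0d59f_nt.ND.V4b
import Pool.Agent.Lib.MP_d0d59f_nt.ND.V4c

/-! The densities of an invariant set in the residue classes modulo a divisor of `d`. -/

namespace Pool.Agent.Lib.MP_d0d59f_nt.ND

open Finset AA Filter Topology

theorem ac_filter (S : Set ℤ) (Z : ℝ) (A : Finset ℤ)
    (hA : ∀ x, x ∈ A ↔ 1 ≤ x ∧ (x : ℝ) < Z ∧ x ∈ S) (P : ℤ → Prop) [DecidablePred P] :
    ac {x | x ∈ S ∧ P x} Z = (A.filter P).card := by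
  unfold ac
  rw [← Set.ncard_coe_finset]
  congr 1
  ext x
  simp only [Finset.coe_filter, Set.mem_ofPred_eq, hA]
  tauto

theorem ac_diff (S : Set ℤ) {Z Z' : ℝ} (h : Z ≤ Z') : |(ac S Z' : ℝ) - ac S Z| ≤ (Z' - Z) + 1 := by
  classical
  have hsub : {x : ℤ | 1 ≤ x ∧ (x : ℝ) < Z ∧ x ∈ S} ⊆ {x : ℤ | 1 ≤ x ∧ (x : ℝ) < Z' ∧ x ∈ S} :=
    fun x hx => ⟨hx.1, lt_of_lt_of_le hx.2.1 h, hx.2.2⟩
  have h1 : ac S Z ≤ ac S Z' := Set.ncard_le_ncard hsub (fin_one Z' _)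
  have h2 : {x : ℤ | 1 ≤ x ∧ (x : ℝ) < Z' ∧ x ∈ S} ⊆
      {x : ℤ | 1 ≤ x ∧ (x : ℝ) < Z ∧ x ∈ S} ∪ ((Finset.Ico ⌈Z⌉ ⌈Z'⌉ : Finset ℤ) : Set ℤ) := by
    rintro x ⟨h1, h2, h3⟩
    by_cases hx : (x : ℝ) < Z
    · exact Or.inl ⟨h1, hx, h3⟩
    · right
      push Not at hx
      rw [Finset.mem_coe, Finset.mem_Ico]
      exact ⟨Int.ceil_le.2 hx, Int.lt_ceil.2 h2⟩
  have h3 := Set.ncard_le_ncard h2 ((fin_one Z _).union (Finset.finite_toSet _))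
  have h4 := Set.ncard_union_le {x : ℤ | 1 ≤ x ∧ (x : ℝ) < Z ∧ x ∈ S}
    ((Finset.Ico ⌈Z⌉ ⌈Z'⌉ : Finset ℤ) : Set ℤ)
  rw [Set.ncard_coe_finset, Int.card_Ico] at h4
  have h5 : ac S Z' ≤ ac S Z + (⌈Z'⌉ - ⌈Z⌉).toNat := h3.trans h4
  have h6 : ⌈Z⌉ ≤ ⌈Z'⌉ := Int.ceil_mono h
  have h7 : (((⌈Z'⌉ - ⌈Z⌉).toNat : ℕ) : ℝ) ≤ (Z' - Z) + 1 := by
    have h8 : (((⌈Z'⌉ - ⌈Z⌉).toNat : ℤ) : ℝ) = ((⌈Z'⌉ - ⌈Z⌉ : ℤ) : ℝ) := by
      rw [Int.toNat_of_nonneg (by omega)]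
    rw [Int.cast_natCast] at h8
    rw [h8]
    push_cast
    linarith [Int.ceil_lt_add_one Z', Int.le_ceil Z]
  have h9 : (ac S Z' : ℝ) ≤ ac S Z + ((⌈Z'⌉ - ⌈Z⌉).toNat : ℕ) := by exact_mod_cast h5
  have h10 : (ac S Z : ℝ) ≤ ac S Z' := by exact_mod_cast h1
  rw [abs_of_nonneg (by linarith)]
  linarith

section
variable {d : ℤ} {C b : ℝ} {S : Set ℤ} {g : ℕ}

/-- One third of the elements of a class modulo a divisor of `d` is in each class modulo `3`. -/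
theorem third (hd : Odd d) (h3 : ¬ (3 : ℤ) ∣ d) (hC : 0 ≤ C) (hLC : LCQ d C) (hb : 0 ≤ b)
    (hS : Inv d b S) (hg : (g : ℤ) ∣ d) (ρ c : ℤ) :
    Tendsto (fun Z : ℝ => (ac {x | x ∈ S ∧ (x ≡ ρ [ZMOD g] ∧ x ≡ c [ZMOD 3])} Z : ℝ) / Z -
      (ac {x | x ∈ S ∧ x ≡ ρ [ZMOD g]} Z : ℝ) / Z / 3) atTop (𝓝 0) := by
  classical
  have hpair : ∀ c' : ℤ, Tendsto (fun Z : ℝ =>
      ((ac {x | x ∈ S ∧ (x ≡ ρ [ZMOD g] ∧ x ≡ c [ZMOD 3])} Z : ℝ) -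
        ac {x | x ∈ S ∧ (x ≡ ρ [ZMOD g] ∧ x ≡ c' [ZMOD 3])} Z) / Z) atTop (𝓝 0) := by
    intro c'
    have hd2 : (3 : ℤ) ∣ d * d - 1 := by
      have h1 : d % 3 = 1 ∨ d % 3 = 2 := by omega
      obtain ⟨k, hk⟩ : ∃ k, k = d / 3 := ⟨_, rfl⟩
      rcases h1 with h1 | h1
      · have h2 : d = 3 * k + 1 := by omega
        exact ⟨3 * k * k + 2 * k, by rw [h2]; ring⟩
      · have h2 : d = 3 * k + 2 := by omega
        exact ⟨3 * k * k + 4 * k + 1, by rw [h2]; ring⟩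
    obtain ⟨e, he⟩ := hd2
    have h1 : ∀ x : ℤ, x ≡ c [ZMOD 3] → x + d * (d * (c' - c)) ≡ c' [ZMOD 3] := by
      intro x hx
      have h2 : d * (d * (c' - c)) = (c' - c) + 3 * (e * (c' - c)) := by
        linear_combination (c' - c) * he
      rw [h2]
      obtain ⟨k, hk⟩ := (Int.modEq_iff_dvd).1 hx
      exact (Int.modEq_iff_dvd).2 ⟨k - e * (c' - c), by linear_combination hk⟩
    have h2 : ∀ x : ℤ, x ≡ c' [ZMOD 3] → x - d * (d * (c' - c)) ≡ c [ZMOD 3] := by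
      intro x hx
      have h2 : d * (d * (c' - c)) = (c' - c) + 3 * (e * (c' - c)) := by
        linear_combination (c' - c) * he
      rw [h2]
      obtain ⟨k, hk⟩ := (Int.modEq_iff_dvd).1 hx
      exact (Int.modEq_iff_dvd).2 ⟨k + e * (c' - c), by linear_combination hk⟩
    have hgd : ∀ y : ℤ, d * y ≡ 0 [ZMOD g] := fun y =>
      (Int.modEq_zero_iff_dvd).2 (hg.mul_right y)
    exact pair_tendsto hd hC hLC hb hS (d * (c' - c))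
      (fun x hx => ⟨by simpa using hx.1.add (hgd (d * (c' - c))), h1 x hx.2⟩)
      (fun x hx => ⟨by simpa using hx.1.sub (hgd (d * (c' - c))), h2 x hx.2⟩)
  have hsum : ∀ Z : ℝ, (ac {x | x ∈ S ∧ x ≡ ρ [ZMOD g]} Z : ℝ) =
      ∑ c' ∈ range 3, (ac {x | x ∈ S ∧ (x ≡ ρ [ZMOD g] ∧ x ≡ (c' : ℤ) [ZMOD 3])} Z : ℝ) := by
    intro Z
    obtain ⟨A, hA⟩ : ∃ A : Finset ℤ, ∀ x, x ∈ A ↔ 1 ≤ x ∧ (x : ℝ) < Z ∧ x ∈ S :=
      ⟨(fin_one Z (fun x => x ∈ S)).toFinset, fun x => by simp⟩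
    rw [ac_filter S Z A hA]
    have h1 : ∀ c' : ℕ, ac {x | x ∈ S ∧ (x ≡ ρ [ZMOD g] ∧ x ≡ (c' : ℤ) [ZMOD 3])} Z =
        ((A.filter (fun x => x ≡ ρ [ZMOD g])).filter (fun x => x ≡ (c' : ℤ) [ZMOD 3])).card := by
      intro c'
      rw [ac_filter S Z A hA, Finset.filter_filter]
    rw [Finset.sum_congr rfl fun c' _ => by rw [h1 c']]
    rw [Finset.card_eq_sum_card_fiberwise (f := fun x : ℤ => (x % 3).toNat) (t := range 3)]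
    · push_cast
      refine Finset.sum_congr rfl fun c' hc' => ?_
      have h2 : (c' : ℤ) < 3 := by exact_mod_cast Finset.mem_range.1 hc'
      congr 1
      congr 1
      ext x
      simp only [Finset.mem_filter]
      refine and_congr_right fun _ => ?_
      unfold Int.ModEq
      omega
    · intro x _
      simp only [Finset.coe_range, Set.mem_Iio]
      omega
  have h1 : Tendsto (fun Z : ℝ => ∑ c' ∈ range 3,
      ((ac {x | x ∈ S ∧ (x ≡ ρ [ZMOD g] ∧ x ≡ c [ZMOD 3])} Z : ℝ) -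
        ac {x | x ∈ S ∧ (x ≡ ρ [ZMOD g] ∧ x ≡ (c' : ℤ) [ZMOD 3])} Z) / Z) atTop
      (𝓝 (∑ _c' ∈ range 3, (0 : ℝ))) :=
    tendsto_finsetSum _ fun c' _ => hpair c'
  rw [Finset.sum_const_zero] at h1
  have h2 := h1.div_const 3
  rw [zero_div] at h2
  refine h2.congr fun Z => ?_
  rw [hsum Z, ← Finset.sum_div, Finset.sum_sub_distrib, Finset.sum_const, card_range, nsmul_eq_mul]
  ring

/-- The harmonic equation. -/
theorem harm (hd : Odd d) (h3 : ¬ (3 : ℤ) ∣ d) (hC : 0 ≤ C) (hLC : LCQ d C) (hb : 0 ≤ b)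
    (hS : Inv d b S) (hg : (g : ℤ) ∣ d) (ρ : ℤ) :
    Tendsto (fun Z : ℝ => (ac {x | x ∈ S ∧ x ≡ 2 * ρ [ZMOD g]} Z : ℝ) / Z -
      (ac {x | x ∈ S ∧ x ≡ ρ [ZMOD g]} (Z / 2) : ℝ) / (Z / 2) / 2 -
      (ac {x | x ∈ S ∧ x ≡ 3 * ρ [ZMOD g]} (3 * Z / 2) : ℝ) / (3 * Z / 2) / 2) atTop (𝓝 0) := by
  obtain ⟨K, hK⟩ := harm_count hd h3 hS hg ρ
  have h1 : Tendsto (fun Z : ℝ => ((ac {x | x ∈ S ∧ x ≡ 2 * ρ [ZMOD g]} Z : ℝ) -
      ac {x | x ∈ S ∧ x ≡ ρ [ZMOD g]} (Z / 2) -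
      ac {x | x ∈ S ∧ (x ≡ 3 * ρ [ZMOD g] ∧ x ≡ 2 * d [ZMOD 3])} (3 * Z / 2)) / Z) atTop (𝓝 0) := by
    have h2 : Tendsto (fun Z : ℝ => K / Z) atTop (𝓝 0) := tendsto_const_nhds.div_atTop tendsto_id
    refine squeeze_zero_norm' ?_ h2
    filter_upwards [eventually_gt_atTop (0 : ℝ)] with Z hZ
    rw [Real.norm_eq_abs, abs_div, abs_of_pos hZ]
    exact div_le_div_of_nonneg_right (hK Z) hZ.le
  have hmul : Tendsto (fun Z : ℝ => 3 * Z / 2) atTop atTop := by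
    have : Tendsto (fun Z : ℝ => (3 / 2) * Z) atTop atTop := tendsto_id.const_mul_atTop (by norm_num)
    exact this.congr fun Z => by ring
  have h2 := (third hd h3 hC hLC hb hS hg (3 * ρ) (2 * d)).comp hmul
  have h3' := h1.add (h2.const_mul (3 / 2))
  rw [mul_zero, add_zero] at h3'
  refine h3'.congr' ?_
  filter_upwards [eventually_gt_atTop (0 : ℝ)] with Z hZ
  simp only [Function.comp_apply]
  field_simp
  ring

end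

end Pool.Agent.Lib.MP_d0d59f_nt.ND
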