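import Pool.Agent.Lib.MP_d0d59f_nt.ND.V4d

/-! The densities of an invariant set in the residue classes modulo a divisor of `d` are equal along
the orbits of the group generated by `2` and `3`. -/

namespace Pool.Agent.Lib.MP_d0d59f_nt.ND

open Finset AA Filter Topology

section
variable {d : ℤ} {C b : ℝ} {S : Set ℤ} {g : ℕ}

/-- The unit `2` modulo `g`. -/
def u2 (h : Nat.Coprime 2 g) : (ZMod g)ˣ := ZMod.unitOfCoprime 2 h

/-- The unit `3` modulo `g`. -/
def u3 (h : Nat.Coprime 3 g) : (ZMod g)ˣ := ZMod.unitOfCoprime 3 h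

/-- The sum of the densities in the classes `u r` converges, for every finite group `G` of units which
contains `2` and `3`. -/
theorem sum_conv (hd : Odd d) (h3 : ¬ (3 : ℤ) ∣ d) (hS : Inv d b S) (hg : (g : ℤ) ∣ d)
    (h2g : Nat.Coprime 2 g) (h3g : Nat.Coprime 3 g) (G : Subgroup (ZMod g)ˣ) [Fintype G]
    (h2 : u2 h2g ∈ G) (h3m : u3 h3g ∈ G) (r : ZMod g) :
    ∃ A : ℝ, Tendsto (fun Z : ℝ => ∑ u : G,
      (ac {x | x ∈ S ∧ (x : ZMod g) = ((u : (ZMod g)ˣ) : ZMod g) * r} Z : ℝ) / Z) atTop (𝓝 A) := by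
  classical
  -- the weight of `x`
  obtain ⟨W, hW⟩ : ∃ W : ℤ → ℕ, W = fun (x : ℤ) => ∑ u : G,
      if (x : ZMod g) = ((u : (ZMod g)ˣ) : ZMod g) * r then 1 else 0 := ⟨_, rfl⟩
  have hdg : (d : ZMod g) = 0 := (ZMod.intCast_zmod_eq_zero_iff_dvd d g).2 hg
  have h2u : ((u2 h2g : (ZMod g)ˣ) : ZMod g) = 2 := by
    unfold u2
    rw [ZMod.coe_unitOfCoprime]
    norm_num
  have h3u : ((u3 h3g : (ZMod g)ˣ) : ZMod g) = 3 := by
    unfold u3
    rw [ZMod.coe_unitOfCoprime]
    norm_num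
  have hWT : ∀ x : ℤ, W (T d x) = W x := by
    intro x
    have key : ∀ v : (ZMod g)ˣ, v ∈ G → (x : ZMod g) = (v : ZMod g) * (T d x : ℤ) →
        W (T d x) = W x := by
      intro v hv hx
      rw [hW]
      refine Fintype.sum_equiv (Equiv.mulLeft (⟨v, hv⟩ : G)) _ _ fun u => ?_
      have h1 : (((T d x : ℤ) : ZMod g) = ((u : (ZMod g)ˣ) : ZMod g) * r) ↔
          ((x : ZMod g) = ((((Equiv.mulLeft (⟨v, hv⟩ : G)) u : G) : (ZMod g)ˣ) : ZMod g) * r) := by
        rw [hx]
        simp only [Equiv.coe_mulLeft, Subgroup.coe_mul, Units.val_mul]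
        rw [mul_assoc]
        exact (Units.mul_right_inj v).symm
      simp only [h1]
    rcases Int.even_or_odd x with he | ho
    · refine key (u2 h2g) h2 ?_
      obtain ⟨y, hy⟩ := he
      have hTy : T d x = y := by
        unfold T
        rw [if_pos (by omega)]
        omega
      rw [hTy, h2u, hy]
      push_cast
      ring
    · refine key (u2 h2g * (u3 h3g)⁻¹) (G.mul_mem h2 (G.inv_mem h3m)) ?_
      have h2T : 2 * T d x = 3 * x + d := by
        obtain ⟨u, hu⟩ := ho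
        obtain ⟨v, hv⟩ := hd
        unfold T
        rw [if_neg (by omega)]
        omega
      have h4 : (2 : ZMod g) * ((T d x : ℤ) : ZMod g) = 3 * (x : ZMod g) := by
        have := congrArg (fun z : ℤ => (z : ZMod g)) h2T
        push_cast at this
        rw [hdg, add_zero] at this
        exact this
      rw [Units.val_mul, h2u, mul_comm (2 : ZMod g), mul_assoc, h4, ← h3u, ← mul_assoc,
        Units.inv_mul, one_mul]
  -- the level sets of the weight
  have hInv : ∀ k : ℕ, Inv d b {x | x ∈ S ∧ W x = k} := by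
    intro k x hx
    simp only [Set.mem_ofPred_eq]
    rw [hS x hx, hWT]
  have hlim : ∀ k : ℕ, ∃ α : ℝ, Tendsto (fun Z : ℝ => (ac {x | x ∈ S ∧ W x = k} Z : ℝ) / Z) atTop
      (𝓝 α) := fun k => by
    obtain ⟨α, _, h, _⟩ := main_log hd h3 (hInv k)
    exact ⟨α, h⟩
  choose α hα using hlim
  refine ⟨∑ k ∈ range (Fintype.card G + 1), (k : ℝ) * α k, ?_⟩
  have hmain : Tendsto (fun Z : ℝ => ∑ k ∈ range (Fintype.card G + 1),
      (k : ℝ) * ((ac {x | x ∈ S ∧ W x = k} Z : ℝ) / Z)) atTop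
      (𝓝 (∑ k ∈ range (Fintype.card G + 1), (k : ℝ) * α k)) :=
    tendsto_finsetSum _ fun k _ => (hα k).const_mul _
  refine hmain.congr fun Z => ?_
  obtain ⟨A, hA⟩ : ∃ A : Finset ℤ, ∀ x, x ∈ A ↔ 1 ≤ x ∧ (x : ℝ) < Z ∧ x ∈ S :=
    ⟨(fin_one Z (fun x => x ∈ S)).toFinset, fun x => by simp⟩
  have hWle : ∀ x, W x < Fintype.card G + 1 := by
    intro x
    have h1 : W x ≤ ∑ _u : G, 1 := by
      rw [hW]
      refine Finset.sum_le_sum fun u _ => ?_
      split_ifs <;> omega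
    rw [Finset.sum_const, Finset.card_univ, smul_eq_mul, mul_one] at h1
    omega
  have e1 : ∑ k ∈ range (Fintype.card G + 1), k * (A.filter (fun x => W x = k)).card =
      ∑ x ∈ A, W x := by
    rw [← Finset.sum_fiberwise_of_maps_to (s := A) (t := range (Fintype.card G + 1)) (g := W)
      (fun x _ => Finset.mem_range.2 (hWle x))]
    refine Finset.sum_congr rfl fun k _ => ?_
    rw [Finset.sum_congr rfl (fun x hx => (Finset.mem_filter.1 hx).2), Finset.sum_const, smul_eq_mul,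
      mul_comm]
  have e2 : ∑ x ∈ A, W x = ∑ u : G, (A.filter
      (fun x : ℤ => (x : ZMod g) = ((u : (ZMod g)ˣ) : ZMod g) * r)).card := by
    rw [hW, Finset.sum_comm]
    refine Finset.sum_congr rfl fun u _ => ?_
    rw [Finset.card_filter]
  have e3 : ∀ k : ℕ, (ac {x | x ∈ S ∧ W x = k} Z : ℝ) = ((A.filter (fun x => W x = k)).card : ℝ) := by
    intro k
    rw [ac_filter S Z A hA]
  have e4 : ∀ u : G, (ac {x | x ∈ S ∧ (x : ZMod g) = ((u : (ZMod g)ˣ) : ZMod g) * r} Z : ℝ) =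
      ((A.filter (fun x : ℤ => (x : ZMod g) = ((u : (ZMod g)ˣ) : ZMod g) * r)).card : ℝ) := by
    intro u
    rw [ac_filter S Z A hA]
  have e5 : ∑ k ∈ range (Fintype.card G + 1), (k : ℝ) * ((A.filter (fun x => W x = k)).card : ℝ) =
      ∑ u : G, ((A.filter (fun x : ℤ => (x : ZMod g) = ((u : (ZMod g)ˣ) : ZMod g) * r)).card : ℝ) := by
    have := e1.trans e2
    exact_mod_cast this
  rw [Finset.sum_congr rfl fun k _ => by rw [e3 k, ← mul_div_assoc], ← Finset.sum_div, e5,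
    Finset.sum_div]
  exact Finset.sum_congr rfl fun u _ => by rw [e4 u]

end

end Pool.Agent.Lib.MP_d0d59f_nt.ND
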