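import Pool.Agent.Lib.MP_d0d59f_nt.ND.V4e

/-! The densities of an invariant set in the residue classes: all moduli. -/

namespace Pool.Agent.Lib.MP_d0d59f_nt.ND

open Finset AA Filter Topology

section
variable {d : ℤ} {C b : ℝ} {S : Set ℤ} {g : ℕ}

/-- The numbers `(1/2)^k (3/2)^a` with `2^(-k-a) 3^a` prescribed in a finite group are close to `1`. -/
theorem dens_group {G : Type*} [CommGroup G] [Fintype G] (x y : G) (m n : ℤ) {η : ℝ} (hη : 0 < η) :
    ∃ k a : ℕ, (x⁻¹) ^ k * (y * x⁻¹) ^ a = x ^ m * y ^ n ∧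
      |(1 / 2 : ℝ) ^ k * (3 / 2) ^ a - 1| ≤ η := by
  obtain ⟨f, hf⟩ : ∃ f : ℕ, f = Fintype.card G := ⟨_, rfl⟩
  have hf0 : 0 < f := by rw [hf]; exact Fintype.card_pos_iff.2 ⟨1⟩
  have hfZ : (0 : ℤ) < f := by exact_mod_cast hf0
  obtain ⟨η', hη'⟩ : ∃ η' : ℝ, η' = min (η / 2) (1 / 4) := ⟨_, rfl⟩
  have h0 : 0 < η' := by rw [hη']; positivity
  have h1 : η' ≤ η / 2 := by rw [hη']; exact min_le_left _ _
  have h2 : η' ≤ 1 / 4 := by rw [hη']; exact min_le_right _ _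
  obtain ⟨a, N, haN, has, hNt, haN2⟩ := dens_pair hf0 (n % f).toNat ((-m) % f).toNat h0 (by linarith)
  refine ⟨N - a, a, ?_, ?_⟩
  · have e1 : (x⁻¹) ^ (N - a) * (y * x⁻¹) ^ a = x ^ (-(N : ℤ)) * y ^ (a : ℤ) := by
      rw [mul_pow, mul_comm (y ^ a), ← mul_assoc, ← pow_add, Nat.sub_add_cancel haN, zpow_neg,
        zpow_natCast, zpow_natCast, inv_pow]
    have e2 : y ^ (a : ℤ) = y ^ n := by
      rw [← zpow_mod_card y (a : ℤ), ← zpow_mod_card y n, ← hf]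
      congr 1
      have h3 : (a : ℤ) ≡ ((n % f).toNat : ℤ) [ZMOD f] := (Int.natCast_modEq_iff).2 has
      rw [Int.toNat_of_nonneg (Int.emod_nonneg n hfZ.ne')] at h3
      unfold Int.ModEq at h3
      rw [h3, Int.emod_emod_of_dvd _ (dvd_refl _)]
    have e3 : x ^ (-(N : ℤ)) = x ^ m := by
      rw [← zpow_mod_card x (-(N : ℤ)), ← zpow_mod_card x m, ← hf]
      congr 1
      have h3 : (N : ℤ) ≡ (((-m) % f).toNat : ℤ) [ZMOD f] := (Int.natCast_modEq_iff).2 hNt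
      rw [Int.toNat_of_nonneg (Int.emod_nonneg (-m) hfZ.ne')] at h3
      have h4 : (N : ℤ) ≡ -m [ZMOD f] := h3.trans (Int.mod_modEq _ _)
      have h5 := h4.neg
      rw [neg_neg] at h5
      exact h5
    rw [e1, e2, e3]
  · have hl2 : 0 < Real.log 2 := Real.log_pos (by norm_num)
    have hl2' : Real.log 2 ≤ 1 := by have := Real.log_two_lt_d9; linarith
    have e1 : (1 / 2 : ℝ) ^ (N - a) * (3 / 2) ^ a = Real.exp (Real.log 2 * ((a : ℝ) * lam - N)) := by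
      have h3 : Real.log 2 * ((a : ℝ) * lam - N) = Real.log (3 ^ a) - Real.log (2 ^ N) := by
        unfold lam Real.logb
        rw [Real.log_pow, Real.log_pow]
        field_simp
      rw [h3, Real.exp_sub, Real.exp_log (by positivity), Real.exp_log (by positivity)]
      have h4 : (2 : ℝ) ^ N = 2 ^ (N - a) * 2 ^ a := by rw [← pow_add, Nat.sub_add_cancel haN]
      rw [h4, div_pow, div_pow, one_pow]
      field_simp
    rw [e1]
    have h3 : |Real.log 2 * ((a : ℝ) * lam - N)| ≤ η' := by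
      rw [abs_mul, abs_of_pos hl2]
      calc Real.log 2 * |(a : ℝ) * lam - N| ≤ 1 * η' :=
            mul_le_mul hl2' haN2 (abs_nonneg _) zero_le_one
        _ = η' := one_mul _
    have h4 := Real.abs_exp_sub_one_le (h3.trans (by linarith : η' ≤ 1))
    linarith

/-- Modulo a divisor of `d`. -/
theorem class_lim (hd : Odd d) (h3 : ¬ (3 : ℤ) ∣ d) (hC : 0 ≤ C) (hLC : LCQ d C) (hb : 0 ≤ b)
    (hS : Inv d b S) (hg0 : 0 < g) (hg : (g : ℤ) ∣ d) (r : ℤ) :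
    ∃ α : ℝ, ∀ i j : ℕ, Tendsto
      (fun Z : ℝ => (ac {x | x ∈ S ∧ x ≡ 2 ^ i * 3 ^ j * r [ZMOD g]} Z : ℝ) / Z) atTop (𝓝 α) := by
  classical
  have : NeZero g := ⟨hg0.ne'⟩
  have h2g : Nat.Coprime 2 g := by
    have h1 : ¬ (2 : ℤ) ∣ g := fun h => by
      have : (2 : ℤ) ∣ d := h.trans hg
      obtain ⟨k, hk⟩ := hd
      omega
    have h2 : ¬ 2 ∣ g := fun h => h1 (by exact_mod_cast h)
    exact (Nat.Prime.coprime_iff_not_dvd Nat.prime_two).2 h2
  have h3g : Nat.Coprime 3 g := by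
    have h2 : ¬ 3 ∣ g := fun h => h3 (dvd_trans (by exact_mod_cast h) hg)
    exact (Nat.Prime.coprime_iff_not_dvd Nat.prime_three).2 h2
  obtain ⟨G, hG⟩ : ∃ G : Subgroup (ZMod g)ˣ, G = Subgroup.closure {u2 h2g, u3 h3g} := ⟨_, rfl⟩
  have hm2 : u2 h2g ∈ G := by rw [hG]; exact Subgroup.subset_closure (by simp)
  have hm3 : u3 h3g ∈ G := by rw [hG]; exact Subgroup.subset_closure (by simp)
  have : Fintype G := Fintype.ofFinite _
  have h2u : ((u2 h2g : (ZMod g)ˣ) : ZMod g) = 2 := by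
    unfold u2
    rw [ZMod.coe_unitOfCoprime]
    norm_num
  have h3u : ((u3 h3g : (ZMod g)ˣ) : ZMod g) = 3 := by
    unfold u3
    rw [ZMod.coe_unitOfCoprime]
    norm_num
  obtain ⟨A, hA⟩ := sum_conv hd h3 hS hg h2g h3g G hm2 hm3 (r : ZMod g)
  obtain ⟨F, hF⟩ : ∃ F : G → ℝ → ℝ, F = fun (u : G) (Z : ℝ) =>
      (ac {x | x ∈ S ∧ (x : ZMod g) = ((u : (ZMod g)ˣ) : ZMod g) * (r : ZMod g)} Z : ℝ) / Z := ⟨_, rfl⟩
  -- translation to congruences
  have hcl : ∀ (w : ZMod g) (ρ : ℤ), (ρ : ZMod g) = w →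
      {x : ℤ | x ∈ S ∧ (x : ZMod g) = w} = {x | x ∈ S ∧ x ≡ ρ [ZMOD g]} := by
    intro w ρ hρ
    ext x
    simp only [Set.mem_ofPred_eq]
    rw [← hρ, ZMod.intCast_eq_intCast_iff]
  obtain ⟨x2, hx2⟩ : ∃ x2 : G, x2 = ⟨u2 h2g, hm2⟩ := ⟨_, rfl⟩
  obtain ⟨x3, hx3⟩ : ∃ x3 : G, x3 = ⟨u3 h3g, hm3⟩ := ⟨_, rfl⟩
  have key := harm_limit F x2⁻¹ (x3 * x2⁻¹) A ?_ ?_ ?_ ?_ ?_
  · refine ⟨A / Fintype.card G, fun i j => ?_⟩
    have h1 := key (x2 ^ i * x3 ^ j)
    refine h1.congr fun Z => ?_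
    rw [hF]
    show (ac {x : ℤ | x ∈ S ∧ (x : ZMod g) = (((x2 ^ i * x3 ^ j : G) : (ZMod g)ˣ) : ZMod g) *
      (r : ZMod g)} Z : ℝ) / Z = _
    rw [hcl _ (2 ^ i * 3 ^ j * r)]
    rw [hx2, hx3]
    simp only [Subgroup.coe_mul, SubmonoidClass.coe_pow, Units.val_mul, Units.val_pow_eq_pow_val, h2u,
      h3u]
    push_cast
    ring
  · intro u Z hZ
    rw [hF]
    constructor
    · positivity
    · have hZ0 : 0 < Z := by linarith
      simp only
      rw [div_le_one hZ0]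
      exact ac_le _ hZ
  · intro u Z Z' hZ hZZ
    rw [hF]
    have hZ0 : Z ≠ 0 := by linarith
    have hZ0' : Z' ≠ 0 := by linarith
    simp only
    rw [mul_div_cancel₀ _ hZ0', mul_div_cancel₀ _ hZ0]
    exact ac_diff _ hZZ
  · intro u
    obtain ⟨w, hw⟩ : ∃ w : ZMod g, w = (((x2⁻¹ * u : G) : (ZMod g)ˣ) : ZMod g) * (r : ZMod g) := ⟨_, rfl⟩
    obtain ⟨ρ, hρ⟩ : ∃ ρ : ℤ, (ρ : ZMod g) = w := ⟨(w.val : ℤ), by
      rw [Int.cast_natCast, ZMod.natCast_zmod_val]⟩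
    have h1 := harm hd h3 hC hLC hb hS hg ρ
    refine h1.congr fun Z => ?_
    rw [hF]
    have e1 : {x : ℤ | x ∈ S ∧ (x : ZMod g) = ((u : (ZMod g)ˣ) : ZMod g) * (r : ZMod g)} =
        {x | x ∈ S ∧ x ≡ 2 * ρ [ZMOD g]} := by
      refine hcl _ _ ?_
      push_cast
      rw [hρ, hw, hx2]
      simp only [Subgroup.coe_mul, Subgroup.coe_inv, Units.val_mul]
      rw [← mul_assoc, ← mul_assoc, ← h2u, Units.mul_inv, one_mul]
    have e2 : {x : ℤ | x ∈ S ∧ (x : ZMod g) = (((x2⁻¹ * u : G) : (ZMod g)ˣ) : ZMod g) *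
        (r : ZMod g)} = {x | x ∈ S ∧ x ≡ ρ [ZMOD g]} := hcl _ _ (hρ.trans hw)
    have e3 : {x : ℤ | x ∈ S ∧ (x : ZMod g) = (((x3 * x2⁻¹ * u : G) : (ZMod g)ˣ) : ZMod g) *
        (r : ZMod g)} = {x | x ∈ S ∧ x ≡ 3 * ρ [ZMOD g]} := by
      refine hcl _ _ ?_
      push_cast
      rw [hρ, hw, hx3]
      simp only [Subgroup.coe_mul, Subgroup.coe_inv, Units.val_mul]
      rw [h3u]
      ring
    simp only
    rw [e1, e2, e3]
  · rw [hF]
    exact hA
  · intro v η hη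
    obtain ⟨v, hv⟩ := v
    have hv' := hv
    rw [hG, Subgroup.mem_closure_pair] at hv'
    obtain ⟨m, n, hmn⟩ := hv'
    obtain ⟨k, a, h1, h2⟩ := dens_group x2 x3 m n hη
    refine ⟨k, a, ?_, h2⟩
    rw [h1, hx2, hx3]
    apply Subtype.ext
    simp only [Subgroup.coe_mul, SubgroupClass.coe_zpow]
    exact hmn

/-- All moduli: the density in the class of `r` modulo `q` exists and depends only on the class of
`r` modulo `gcd q d` up to multiplication by `2` and `3`. -/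
theorem class_all (hd : Odd d) (h3 : ¬ (3 : ℤ) ∣ d) (hC : 0 ≤ C) (hLC : LCQ d C) (hb : 0 ≤ b)
    (hS : Inv d b S) {q : ℕ} (hq : 0 < q) :
    ∃ α : ℤ → ℝ, (∀ r : ℤ, Tendsto
      (fun Z : ℝ => (ac {x | x ∈ S ∧ x ≡ r [ZMOD q]} Z : ℝ) / Z) atTop (𝓝 (α r))) ∧
      ∀ (r r' : ℤ) (i j : ℕ), r' ≡ 2 ^ i * 3 ^ j * r [ZMOD (Int.gcd q d : ℕ)] → α r' = α r := by
  classical
  obtain ⟨g, hg⟩ : ∃ g : ℕ, g = Int.gcd q d := ⟨_, rfl⟩
  have hg0 : 0 < g := by
    rw [hg]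
    exact Int.gcd_pos_of_ne_zero_left _ (by exact_mod_cast hq.ne')
  have hgd : (g : ℤ) ∣ d := by rw [hg]; exact Int.gcd_dvd_right _ _
  have hgq : (g : ℤ) ∣ q := by rw [hg]; exact Int.gcd_dvd_left _ _
  have hqZ : (0 : ℤ) < q := by exact_mod_cast hq
  -- two classes modulo `q` in the same class modulo `g`
  have hpair : ∀ r r' : ℤ, r' ≡ r [ZMOD g] → Tendsto (fun Z : ℝ =>
      ((ac {x | x ∈ S ∧ x ≡ r [ZMOD q]} Z : ℝ) - ac {x | x ∈ S ∧ x ≡ r' [ZMOD q]} Z) / Z) atTop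
        (𝓝 0) := by
    intro r r' hr
    obtain ⟨t, ht⟩ := (Int.modEq_iff_dvd).1 hr.symm
    -- `r' - r = g t`, `g = q u + d v`
    have hbez := Int.gcd_eq_gcd_ab q d
    rw [← hg] at hbez
    obtain ⟨u, hu⟩ : ∃ u, u = Int.gcdA q d := ⟨_, rfl⟩
    obtain ⟨v, hv⟩ : ∃ v, v = Int.gcdB q d := ⟨_, rfl⟩
    rw [← hu, ← hv] at hbez
    refine pair_tendsto hd hC hLC hb hS (v * t) (fun x hx => ?_) (fun x hx => ?_)
    · obtain ⟨k, hk⟩ := (Int.modEq_iff_dvd).1 hx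
      exact (Int.modEq_iff_dvd).2 ⟨k + u * t, by linear_combination hk + ht + t * hbez⟩
    · obtain ⟨k, hk⟩ := (Int.modEq_iff_dvd).1 hx
      exact (Int.modEq_iff_dvd).2 ⟨k - u * t, by linear_combination hk - ht - t * hbez⟩
  -- the classes modulo `q` inside the class of `r` modulo `g`
  obtain ⟨R, hR⟩ : ∃ R : ℤ → Finset ℕ, R = fun (r : ℤ) =>
      (range q).filter (fun c : ℕ => (c : ℤ) ≡ r [ZMOD g]) := ⟨_, rfl⟩
  have hRmem : ∀ r, (r % q).toNat ∈ R r := by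
    intro r
    have h1 := Int.emod_nonneg r hqZ.ne'
    have h2 := Int.emod_lt_of_pos r hqZ
    rw [hR, Finset.mem_filter, Finset.mem_range]
    refine ⟨by omega, ?_⟩
    rw [Int.toNat_of_nonneg h1]
    exact (Int.mod_modEq r q).of_dvd hgq
  have hRpos : ∀ r, (0 : ℝ) < (R r).card := fun r => by
    exact_mod_cast Finset.card_pos.2 ⟨_, hRmem r⟩
  have hRsum : ∀ (r : ℤ) (Z : ℝ), (ac {x | x ∈ S ∧ x ≡ r [ZMOD g]} Z : ℝ) =
      ∑ c ∈ R r, (ac {x | x ∈ S ∧ x ≡ (c : ℤ) [ZMOD q]} Z : ℝ) := by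
    intro r Z
    obtain ⟨A, hA⟩ : ∃ A : Finset ℤ, ∀ x, x ∈ A ↔ 1 ≤ x ∧ (x : ℝ) < Z ∧ x ∈ S :=
      ⟨(fin_one Z (fun x => x ∈ S)).toFinset, fun x => by simp⟩
    rw [ac_filter S Z A hA]
    have h1 : ∀ c : ℕ, (ac {x | x ∈ S ∧ x ≡ (c : ℤ) [ZMOD q]} Z : ℝ) =
        ((A.filter (fun x => x ≡ (c : ℤ) [ZMOD q])).card : ℝ) := by
      intro c
      rw [ac_filter S Z A hA]
    rw [Finset.sum_congr rfl fun c _ => h1 c]
    rw [Finset.card_eq_sum_card_fiberwise (f := fun x : ℤ => (x % q).toNat) (t := R r)]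
    · push_cast
      refine Finset.sum_congr rfl fun c hc => ?_
      rw [hR, Finset.mem_filter, Finset.mem_range] at hc
      have hcq : (c : ℤ) < q := by exact_mod_cast hc.1
      have hcc : (c : ℤ) % q = c := Int.emod_eq_of_lt (by omega) hcq
      congr 1
      congr 1
      ext x
      simp only [Finset.mem_filter]
      have hx0 := Int.emod_nonneg x hqZ.ne'
      constructor
      · rintro ⟨⟨h2, h3⟩, h4⟩
        refine ⟨h2, ?_⟩
        unfold Int.ModEq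
        rw [hcc, ← h4, Int.toNat_of_nonneg hx0]
      · rintro ⟨h2, h3⟩
        refine ⟨⟨h2, (h3.of_dvd hgq).trans hc.2⟩, ?_⟩
        unfold Int.ModEq at h3
        rw [hcc] at h3
        rw [h3]
        simp
    · intro x hx
      rw [Finset.mem_coe, Finset.mem_filter] at hx
      have hx0 := Int.emod_nonneg x hqZ.ne'
      have hx1 := Int.emod_lt_of_pos x hqZ
      have h2 : (x % q).toNat ∈ R r := by
        rw [hR, Finset.mem_filter, Finset.mem_range]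
        refine ⟨by omega, ?_⟩
        rw [Int.toNat_of_nonneg hx0]
        exact ((Int.mod_modEq x q).of_dvd hgq).trans hx.2
      exact h2
  have hRle : ∀ r r' : ℤ, (R r).card ≤ (R r').card := by
    intro r r'
    refine Finset.card_le_card_of_injOn (fun c : ℕ => (((c : ℤ) + (r' - r)) % q).toNat) ?_ ?_
    · intro c hc
      rw [hR, Finset.mem_coe, Finset.mem_filter, Finset.mem_range] at hc
      have hx0 := Int.emod_nonneg ((c : ℤ) + (r' - r)) hqZ.ne'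
      have hx1 := Int.emod_lt_of_pos ((c : ℤ) + (r' - r)) hqZ
      have h2 : (((c : ℤ) + (r' - r)) % q).toNat ∈ R r' := by
        rw [hR, Finset.mem_filter, Finset.mem_range]
        refine ⟨by omega, ?_⟩
        rw [Int.toNat_of_nonneg hx0]
        refine ((Int.mod_modEq _ q).of_dvd hgq).trans ?_
        have := hc.2.add_right (r' - r)
        rwa [show r + (r' - r) = r' by ring] at this
      exact h2
    · intro c hc c' hc' h
      rw [hR, Finset.mem_coe, Finset.mem_filter, Finset.mem_range] at hc hc'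
      have hx0 := Int.emod_nonneg ((c : ℤ) + (r' - r)) hqZ.ne'
      have hx0' := Int.emod_nonneg ((c' : ℤ) + (r' - r)) hqZ.ne'
      have h1 : (((c : ℤ) + (r' - r)) % q).toNat = (((c' : ℤ) + (r' - r)) % q).toNat := h
      have h2 : ((c : ℤ) + (r' - r)) % q = ((c' : ℤ) + (r' - r)) % q := by omega
      have h3 : (c : ℤ) ≡ c' [ZMOD q] := Int.ModEq.add_right_cancel' (r' - r) h2
      unfold Int.ModEq at h3
      rw [Int.emod_eq_of_lt (by omega) (by exact_mod_cast hc.1),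
        Int.emod_eq_of_lt (by omega) (by exact_mod_cast hc'.1)] at h3
      exact_mod_cast h3
  have hRcard : ∀ r r' : ℤ, (R r).card = (R r').card := fun r r' => le_antisymm (hRle r r') (hRle r' r)
  -- limits modulo `g`
  choose β hβ using fun r => class_lim hd h3 hC hLC hb hS hg0 hgd r
  have hlimq : ∀ r : ℤ, Tendsto (fun Z : ℝ => (ac {x | x ∈ S ∧ x ≡ r [ZMOD q]} Z : ℝ) / Z) atTop
      (𝓝 (β r / (R r).card)) := by
    intro r
    have h1 : Tendsto (fun Z : ℝ => ∑ c ∈ R r,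
        ((ac {x | x ∈ S ∧ x ≡ r [ZMOD q]} Z : ℝ) - ac {x | x ∈ S ∧ x ≡ (c : ℤ) [ZMOD q]} Z) / Z) atTop
        (𝓝 (∑ _c ∈ R r, (0 : ℝ))) := by
      refine tendsto_finsetSum _ fun c hc => hpair r c ?_
      rw [hR, Finset.mem_filter] at hc
      exact hc.2
    rw [Finset.sum_const_zero] at h1
    have h2 := hβ r 0 0
    rw [pow_zero, pow_zero, one_mul, one_mul] at h2
    have h3 := (h1.add h2).div_const ((R r).card : ℝ)
    rw [zero_add] at h3
    refine h3.congr fun Z => ?_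
    rw [hRsum r Z, ← Finset.sum_div, Finset.sum_sub_distrib, Finset.sum_const, nsmul_eq_mul]
    have := (hRpos r).ne'
    field_simp
    ring
  refine ⟨fun r => β r / (R r).card, hlimq, fun r r' i j hr => ?_⟩
  have h1 : β r' = β r := by
    have h2 := hβ r' 0 0
    rw [pow_zero, pow_zero, one_mul, one_mul] at h2
    have h4 := hβ r i j
    have h5 : {x | x ∈ S ∧ x ≡ r' [ZMOD g]} = {x | x ∈ S ∧ x ≡ 2 ^ i * 3 ^ j * r [ZMOD g]} := by
      ext x
      simp only [Set.mem_ofPred_eq]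
      rw [← hg] at hr
      exact and_congr_right fun _ => ⟨fun h => h.trans hr, fun h => h.trans hr.symm⟩
    rw [h5] at h2
    exact tendsto_nhds_unique h2 h4
  simp only
  rw [h1, hRcard r' r]

end

end Pool.Agent.Lib.MP_d0d59f_nt.ND
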