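import Pool.Agent.Lib.MP_d0d59f_nt.ND.V4f

/-! Residue classes, both sides. -/

namespace Pool.Agent.Lib.MP_d0d59f_nt.ND

open Finset AA Filter Topology

theorem both_classes {d : ℤ} (hd : Odd d) (h3 : ¬ (3 : ℤ) ∣ d) {C : ℝ} (hC : 0 ≤ C)
    (hLC : LCQ d C) (hLC' : LCQ (-d) C) {b : ℝ} {S : Set ℤ} (hS : Inv d b S) {s : ℤ}
    (hs : s = 1 ∨ s = -1) {q : ℕ} (hq : 0 < q) :
    ∃ β : ℤ → ℝ, (∀ r : ℤ, Tendsto
      (fun X : ℝ => (cs {x | x ∈ S ∧ x ≡ r [ZMOD q]} s X : ℝ) / X) atTop (𝓝 (β r))) ∧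
      ∀ (r r' : ℤ) (i j : ℕ), r' ≡ 2 ^ i * 3 ^ j * r [ZMOD (Int.gcd q d : ℕ)] → β r' = β r := by
  have h3' : ¬ (3 : ℤ) ∣ -d := fun h => h3 ((dvd_neg).1 h)
  have hS1 := hS.max
  have hS2 : Inv (-d) (max b 0) {x | -x ∈ S} := ND.Inv.neg hd (b := max b 0) (S := S) hS1
  rcases hs with rfl | rfl
  · obtain ⟨α, h1, h2⟩ := class_all hd h3 hC hLC (le_max_right b 0) hS1 hq
    refine ⟨α, fun r => ?_, h2⟩
    refine (h1 r).congr fun X => ?_
    unfold cs ac
    simp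
  · obtain ⟨α, h1, h2⟩ := class_all hd.neg h3' hC hLC' (le_max_right b 0) hS2 hq
    refine ⟨fun r => α (-r), fun r => ?_, fun r r' i j hr => ?_⟩
    · refine (h1 (-r)).congr fun X => ?_
      have e1 : cs {x | x ∈ S ∧ x ≡ r [ZMOD q]} (-1) X =
          ac {x | x ∈ {x | -x ∈ S} ∧ x ≡ -r [ZMOD q]} X := by
        unfold cs ac
        congr 1
        ext x
        simp only [Set.mem_ofPred_eq]
        rw [show -1 * x = -x by ring]
        have : -x ≡ r [ZMOD q] ↔ x ≡ -r [ZMOD q] := by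
          constructor
          · intro h5
            have := h5.neg
            rwa [neg_neg] at this
          · intro h5
            have := h5.neg
            rwa [neg_neg] at this
        rw [this]
      rw [e1]
    · refine h2 (-r) (-r') i j ?_
      rw [Int.gcd_neg]
      have := hr.neg
      rwa [show -(2 ^ i * 3 ^ j * r) = 2 ^ i * 3 ^ j * -r by ring] at this

end Pool.Agent.Lib.MP_d0d59f_nt.ND
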